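import Pool.Agent.R279.OB.Final

/-!
# Outer billiards: a foliation by invariant curves reaching a leaf of parallelograms forces ellipses
-/

namespace Pool.Agent.Results.MP_7a9089_an.FourPeriodicLeaf

open Real Set Pool.Agent.R279.OB
open scoped ContDiff

/-- The concentric circles up to the circle of the circumscribed squares are an example of the
foliations in `result`. -/
theorem concentric : InvFoliation (fun _ => 1) (fun c θ => θ + c * (π / 2)) ∧
    ParallelogramLeaf (fun c θ => θ + c * (π / 2)) := by
  refine ⟨?_, fun θ => by ring⟩
  exact
  { smooth_h := contDiff_const
    per_h := fun _ => rfl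
    curv := fun θ => by simp
    smooth := by fun_prop
    zero := fun θ => by simp
    per := fun c _ θ => by ring
    deriv_angle := fun c _ θ => by simp
    deriv_param := fun c _ θ => by
      have h : HasDerivAt (fun c : ℝ => θ + c * (π / 2)) (π / 2) c := by
        simpa using ((hasDerivAt_id c).mul_const (π / 2)).const_add θ
      rw [h.deriv]
      positivity
    lt_pi := fun c hc θ => by
      have := hc.2
      nlinarith [pi_pos]
    refl := fun c hc w => by
      have hs : 0 < sin (c * (π / 2)) := by
        refine sin_pos_of_pos_of_lt_pi (mul_pos hc.1 (by positivity)) ?_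
        have := hc.2
        nlinarith [pi_pos]
      obtain ⟨u, hu⟩ : ∃ u, u = c * (π / 2) := ⟨_, rfl⟩
      rw [← hu] at hs ⊢
      have e1 : w + u - w = u := by ring
      have e2 : w + u + u - (w + u) = u := by ring
      have t1 := sin_sq_add_cos_sq w
      have t2 := sin_sq_add_cos_sq u
      unfold pt gam
      rw [e1, e2, Prod.ext_iff]
      simp only [deriv_const, Prod.fst_add, Prod.snd_add, Prod.smul_fst, Prod.smul_snd, smul_eq_mul,
        sin_add, cos_add]
      constructor
      · field_simp
        linear_combination (sin w) * t2
      · field_simp
        linear_combination (-cos w) * t2 }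

/-- Let `γ` be a smooth closed curve of positive curvature in the affine plane, and let a smooth
foliation of the closed region between `γ` and an outer leaf consist of invariant curves of the
outer billiard map about `γ`: on every tangent line of `γ` the involution exchanging the two points
of each leaf is the reflection in the point of tangency. Suppose that the outer leaf consists of
the vertices of parallelograms circumscribed about `γ`, or that `γ` is centrally symmetric and the
outer leaf consists of four-periodic points. Then `γ` is an ellipse, and all leaves are ellipses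
homothetic to `γ` with the same centre. -/
theorem result (h : ℝ → ℝ) (Φ : ℝ → ℝ → ℝ) (F : InvFoliation h Φ)
    (hout : ParallelogramLeaf Φ ∨ (CentrallySymmetric h ∧ FourPeriodicLeaf Φ)) :
    ∃ (o : ℝ × ℝ) (a b d : ℝ), 0 < a ∧ 0 < a * d - b ^ 2 ∧
      range (gam h) = {p | quad a b d (p - o) = 1} ∧
      ∀ c ∈ Ioc (0 : ℝ) 1, ∃ lam : ℝ, 1 < lam ∧
        range (fun θ => pt h θ (Φ c θ)) = {p | quad a b d (p - o) = lam} :=
  rigidity F hout

end Pool.Agent.Results.MP_7a9089_an.FourPeriodicLeaf
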